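import Pool.Agent.Helper85.LN.Goals

/-! # Project LN (MP_d0c558_al), packet ENCC: codes of certificates. -/

namespace Pool.Agent.Helper42.LN

open Pool.Agent.Helper85.LN

/-- decoding of a word -/
def dec (m : ℕ) (w : WC) : List (S (Fin m)) :=
  w.filterMap fun s => if h : s.1 < m then some (⟨s.1, h⟩, s.2) else none

theorem codeW_nil {m : ℕ} : codeW ([] : List (S (Fin m))) = [] := rfl

theorem codeW_append {m : ℕ} (u v : List (S (Fin m))) : codeW (u ++ v) = codeW u ++ codeW v := by
  simp [codeW]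

theorem codeW_ok {m : ℕ} (w : List (S (Fin m))) : OkC m (codeW w) := by
  intro s hs
  unfold codeW at hs
  rw [List.mem_map] at hs
  obtain ⟨x, -, rfl⟩ := hs
  exact x.1.2

theorem codeW_dec {m : ℕ} (w : WC) (h : OkC m w) : codeW (dec m w) = w := by
  induction w with
  | nil => rfl
  | cons s w ih =>
    have h1 : s.1 < m := h s (by simp)
    have h2 : OkC m w := fun x hx => h x (by simp [hx])
    have h3 : dec m (s :: w) = (⟨s.1, h1⟩, s.2) :: dec m w := by
      unfold dec
      rw [List.filterMap_cons, dif_pos h1]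
    rw [h3]
    show _ :: codeW (dec m w) = _
    rw [ih h2]

theorem codeW_inj {m : ℕ} {u v : List (S (Fin m))} (h : codeW u = codeW v) : u = v := by
  have hinj : Function.Injective (fun s : S (Fin m) => ((s.1 : ℕ), s.2)) := by
    intro s t hst
    simp only [Prod.mk.injEq] at hst
    exact Prod.ext (Fin.ext hst.1) hst.2
  exact (List.map_injective_iff.2 hinj) h

theorem map_dec {m : ℕ} (R : List WC) (h : ∀ r ∈ R, OkC m r) : (R.map (dec m)).map codeW = R := by
  rw [List.map_map]
  have : ∀ r ∈ R, (codeW ∘ dec m) r = id r := fun r hr => codeW_dec r (h r hr)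
  rw [List.map_congr_left this, List.map_id]

theorem row_perm {k : ℕ} {row : List ℕ} (h1 : row.length = k) (h2 : ∀ z < k, z ∈ row) :
    row.Nodup ∧ ∀ z ∈ row, z < k := by
  have h3 : List.Subperm (List.range k) row :=
    List.subperm_of_subset List.nodup_range fun z hz => h2 z (List.mem_range.1 hz)
  have h4 : List.Perm (List.range k) row := h3.perm_of_length_le (by simp [h1])
  exact ⟨h4.nodup_iff.1 List.nodup_range, fun z hz => List.mem_range.1 (h4.mem_iff.2 hz)⟩

/-- the permutation given by a row -/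
theorem row_equiv {k : ℕ} {row : List ℕ} (h1 : row.length = k) (h2 : ∀ z < k, z ∈ row) :
    ∃ e : Equiv.Perm (Fin k), row = List.ofFn fun z => (e z : ℕ) := by
  obtain ⟨h3, h4⟩ := row_perm h1 h2
  subst h1
  let f : Fin row.length → Fin row.length := fun z => ⟨row[z], h4 _ (List.getElem_mem _)⟩
  have hf : Function.Injective f := by
    intro x y hxy
    have h5 : row[x] = row[y] := congrArg Fin.val hxy
    exact Fin.ext ((h3.getElem_inj_iff).1 h5)
  refine ⟨Equiv.ofBijective f (Finite.injective_iff_bijective.1 hf), ?_⟩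
  refine List.ext_getElem (by simp) fun i hi hi' => ?_
  rw [List.getElem_ofFn]
  rfl

theorem getD_ofFn {α : Type*} {n : ℕ} (f : Fin n → α) (q : Fin n) (x : α) :
    (List.ofFn f).getD q x = f q := by
  rw [List.getD_eq_getElem _ _ (by simp), List.getElem_ofFn]

section

variable {m d : ℕ} (A : Auto (Fin m) (Fin d))

theorem enc_fst : (enc A).1 = d := rfl

theorem enc_len : (enc A).2.1.length = m := by simp [enc]

theorem enc_tr (q : Fin m) (a : Fin d) : trC (enc A) q a = (A.tr q a : ℕ) := by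
  unfold trC enc
  simp only
  rw [getD_ofFn, getD_ofFn]

theorem enc_out (q : Fin m) (a : Fin d) : outC (enc A) q a = (A.out q a : ℕ) := by
  unfold outC enc
  simp only
  rw [getD_ofFn, getD_ofFn]

end

theorem chk2_resp (h0 : S_ENC0) (h1 : S_ENC1) {m k : ℕ} {T : Tab} {W : WA (Fin m) (Fin k)}
    (hT : Reps T W) {R : List (List (S (Fin m)))} {K : List (List WC)}
    (h : Chk2 m T k (R.map codeW) K) : Resp R W := by
  intro r hr z
  obtain ⟨h2, c, -, hc⟩ := h (codeW r) (List.mem_map_of_mem hr) z z.2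
  rw [h0.1 m k T W hT r z] at h2 hc
  refine ⟨Fin.ext h2, (h1 m R _ []).1 ⟨c, hc⟩⟩

theorem encc : S_ENCC := by
  classical
  intro h0 h1 m d A
  have hA := h0.2.2.1 m d A
  constructor
  · rintro ⟨⟨R, k, B, t, l, K⟩, ⟨hc1, hc2, hc3⟩, hc4, hc5, hc6⟩
    simp only at hc1 hc2 hc3 hc4 hc5 hc6
    rw [enc_len] at hc1 hc2 hc3 hc4 hc5
    rw [enc_fst] at hc3 hc4
    have hRd : (R.map (dec m)).map codeW = R := map_dec R hc1
    have hout : ∀ q : Fin m, ∃ e : Equiv.Perm (Fin k), B.1.getD q [] = List.ofFn fun z => (e z : ℕ) :=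
      fun q => row_equiv (hc2 q q.2).1 (hc2 q q.2).2.1
    choose out hout using hout
    let W : WA (Fin m) (Fin k) := ⟨out, fun q z => dec m ((B.2.getD q []).getD z [])⟩
    have hW : Reps B W := by
      refine ⟨hout, fun q z => ?_⟩
      exact (codeW_dec _ ((hc2 q q.2).2.2 z z.2)).symm
    let t' : Fin d → Fin k := fun a => ⟨t.getD a 0, (hc3 a a.2).1⟩
    let l' : Fin d → List (S (Fin m)) := fun a => dec m (l.getD a [])
    have hl' : ∀ a : Fin d, codeW (l' a) = l.getD a [] := fun a => codeW_dec _ (hc3 a a.2).2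
    refine ⟨R.map (dec m), k, W, t', l', ?_, ?_, ?_⟩
    · rw [← hRd] at hc4
      exact chk2_resp h0 h1 hA hc4
    · rw [← hRd] at hc5
      exact chk2_resp h0 h1 hW hc5
    · intro q a
      obtain ⟨h2, c, -, hc⟩ := hc6 q (by rw [enc_len]; exact q.2) a a.2
      rw [enc_tr, enc_out] at h2 hc
      rw [enc_len] at hc
      obtain ⟨h3, h4⟩ := h0.2.1 m k B W hW (A.tr q a, true) (t' a)
      simp only at h3 h4
      have h5 : (t' a : ℕ) = t.getD a 0 := rfl
      rw [h5] at h3 h4
      rw [h3] at h2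
      refine ⟨Fin.ext h2, ?_⟩
      refine (h1 m (R.map (dec m)) _ _).1 ⟨c, ?_⟩
      rw [hRd, codeW_append, codeW_append, ← h4, hl', hl']
      exact hc
  · rintro ⟨R, k, B, t, l, hR1, hR2, hR3⟩
    -- chains
    have hch : ∀ u v, ∃ c, Eqv R u v → ChainC m (R.map codeW) c (codeW u) (codeW v) := by
      intro u v
      by_cases h : Eqv R u v
      · obtain ⟨c, hc⟩ := (h1 m R u v).2 h
        exact ⟨c, fun _ => hc⟩
      · exact ⟨[], fun h' => absurd h' h⟩
    choose ch hch using hch
    let TB : Tab := (List.ofFn fun q => List.ofFn fun z => (B.out q z : ℕ),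
      List.ofFn fun q => List.ofFn fun z => codeW (B.sec1 q z))
    have hTB : Reps TB B := by
      refine ⟨fun q => ?_, fun q z => ?_⟩
      · show (List.ofFn fun q => List.ofFn fun z => (B.out q z : ℕ)).getD q [] = _
        rw [getD_ofFn]
      · show ((List.ofFn fun q => List.ofFn fun z => codeW (B.sec1 q z)).getD q []).getD z [] = _
        rw [getD_ofFn, getD_ofFn]
    let tC : List ℕ := List.ofFn fun a => (t a : ℕ)
    let lC : List WC := List.ofFn fun a => codeW (l a)
    have htC : ∀ a : Fin d, tC.getD a 0 = t a := fun a => getD_ofFn _ a 0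
    have hlC : ∀ a : Fin d, lC.getD a [] = codeW (l a) := fun a => getD_ofFn _ a []
    let K1 : List (List WC) := R.flatMap fun r => List.ofFn fun z : Fin d => ch (A.toWA.scw r z) []
    let K2 : List (List WC) := R.flatMap fun r => List.ofFn fun z : Fin k => ch (B.scw r z) []
    let K3 : List (List WC) := (List.finRange m).flatMap fun q => List.ofFn fun a : Fin d =>
      ch (B.sc (A.tr q a, true) (t a) ++ l a) (l (A.out q a) ++ [(q, true)])
    refine ⟨(R.map codeW, k, TB, tC, lC, K1 ++ (K2 ++ K3)), ⟨?_, ?_, ?_⟩, ?_, ?_, ?_⟩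
    · rw [enc_len]
      intro r hr
      obtain ⟨r', -, rfl⟩ := List.mem_map.1 hr
      exact codeW_ok r'
    · rw [enc_len]
      intro q hq
      simp only
      have e1 := hTB.1 ⟨q, hq⟩
      simp only at e1
      refine ⟨?_, ?_, ?_⟩
      · rw [e1, List.length_ofFn]
      · intro z hz
        rw [e1, List.mem_ofFn]
        exact ⟨(B.out ⟨q, hq⟩).symm ⟨z, hz⟩, by simp⟩
      · intro z hz
        have e2 := hTB.2 ⟨q, hq⟩ ⟨z, hz⟩
        simp only at e2
        rw [e2]
        exact codeW_ok _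
    · rw [enc_len, enc_fst]
      intro a ha
      simp only
      have e1 := htC ⟨a, ha⟩
      have e2 := hlC ⟨a, ha⟩
      simp only at e1 e2
      rw [e1, e2]
      exact ⟨(t ⟨a, ha⟩).2, codeW_ok _⟩
    · rw [enc_len, enc_fst]
      intro r hr z hz
      obtain ⟨r', hr', rfl⟩ := List.mem_map.1 hr
      have e1 := h0.1 m d _ _ hA r' ⟨z, hz⟩
      simp only at e1
      rw [e1]
      obtain ⟨h2, h3⟩ := hR1 r' hr' ⟨z, hz⟩
      refine ⟨by rw [h2], ?_⟩
      refine ⟨ch (A.toWA.scw r' ⟨z, hz⟩) [], ?_, hch _ _ h3⟩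
      refine List.mem_append_left _ ?_
      exact List.mem_flatMap.2 ⟨r', hr', List.mem_ofFn.2 ⟨⟨z, hz⟩, rfl⟩⟩
    · rw [enc_len]
      intro r hr z hz
      obtain ⟨r', hr', rfl⟩ := List.mem_map.1 hr
      have e1 := h0.1 m k _ _ hTB r' ⟨z, hz⟩
      simp only at e1 ⊢
      rw [e1]
      obtain ⟨h2, h3⟩ := hR2 r' hr' ⟨z, hz⟩
      refine ⟨by rw [h2], ?_⟩
      refine ⟨ch (B.scw r' ⟨z, hz⟩) [], ?_, hch _ _ h3⟩
      refine List.mem_append_right _ (List.mem_append_left _ ?_)
      exact List.mem_flatMap.2 ⟨r', hr', List.mem_ofFn.2 ⟨⟨z, hz⟩, rfl⟩⟩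
    · intro q hq a ha
      rw [enc_len] at hq
      have hq' : q = ((⟨q, hq⟩ : Fin m) : ℕ) := rfl
      have ha' : a = ((⟨a, ha⟩ : Fin d) : ℕ) := rfl
      generalize (⟨q, hq⟩ : Fin m) = q' at hq'
      generalize (⟨a, ha⟩ : Fin d) = a' at ha'
      subst hq'
      subst ha'
      simp only
      rw [enc_tr, enc_out, enc_len, htC, htC, hlC, hlC]
      obtain ⟨h3, h4⟩ := h0.2.1 m k TB B hTB (A.tr q' a', true) (t a')
      simp only at h3 h4
      rw [h3, h4]
      obtain ⟨h5, h6⟩ := hR3 q' a'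
      refine ⟨by rw [h5], ?_⟩
      refine ⟨ch (B.sc (A.tr q' a', true) (t a') ++ l a') (l (A.out q' a') ++ [(q', true)]), ?_, ?_⟩
      · refine List.mem_append_right _ (List.mem_append_right _ ?_)
        exact List.mem_flatMap.2 ⟨q', List.mem_finRange _, List.mem_ofFn.2 ⟨a', rfl⟩⟩
      · have := hch _ _ h6
        rw [codeW_append, codeW_append] at this
        exact this

end Pool.Agent.Helper42.LN
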